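import Pool.Agent.R684.PN.Stm

set_option autoImplicit false

/-!
# Comparison of von Neumann dimensions for a subgroup (piece CMP of R684/PN)

An invariant closed subspace `U` of `ℓ²(Γ × S)` which embeds, by an operator commuting with a
subgroup `H`, in `ℓ²(H × J)` satisfies `m · dim U ≤ |J|` if there are `m` cosets of `H` in `Γ`.
-/

open scoped InnerProductSpace InnerProduct ENNReal

namespace Pool.Agent.N399.PN

open Pool.Agent.W649.ZL Pool.Agent.R684.PN

theorem nsq {X : Type} (f : lp (fun _ : X => ℂ) 2) : ‖f‖ ^ 2 = ∑' x, ‖f x‖ ^ 2 := by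
  have h := lp.norm_rpow_eq_tsum (p := 2) (by norm_num) f
  simpa using h

section
variable {A C : Type}

theorem mem_res (e : C → A) (he : Function.Injective e) (f : lp (fun _ : A => ℂ) 2) :
    Memℓp (fun x : C => f (e x)) 2 := by
  rw [memlp_two_iff]
  exact ((memlp_two_iff _).1 f.2).comp_injective he

/-- restriction along an injective map -/
noncomputable def resF (e : C → A) (he : Function.Injective e) (f : lp (fun _ : A => ℂ) 2) :
    lp (fun _ : C => ℂ) 2 := ⟨fun x => f (e x), mem_res e he f⟩

theorem norm_resF_le (e : C → A) (he : Function.Injective e) (f : lp (fun _ : A => ℂ) 2) :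
    ‖resF e he f‖ ≤ ‖f‖ := by
  have h1 := (memlp_two_iff _).1 f.2
  have key : ‖resF e he f‖ ^ 2 ≤ ‖f‖ ^ 2 := by
    rw [nsq, nsq]
    exact tsum_comp_le_tsum_of_inj h1 (fun _ => by positivity) he
  exact (sq_le_sq₀ (norm_nonneg _) (norm_nonneg _)).1 key

/-- restriction along an injective map, as an operator -/
noncomputable def res (e : C → A) (he : Function.Injective e) :
    lp (fun _ : A => ℂ) 2 →L[ℂ] lp (fun _ : C => ℂ) 2 :=
  LinearMap.mkContinuous
    { toFun := resF e he
      map_add' := fun f g => by ext x; rfl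
      map_smul' := fun c f => by ext x; rfl } 1
    (fun f => by rw [one_mul]; exact norm_resF_le e he f)

theorem res_apply (e : C → A) (he : Function.Injective e) (f : lp (fun _ : A => ℂ) 2) (x : C) :
    res e he f x = f (e x) := rfl

theorem norm_res_le (e : C → A) (he : Function.Injective e) (f : lp (fun _ : A => ℂ) 2) :
    ‖res e he f‖ ≤ ‖f‖ := norm_resF_le e he f

end

theorem t_CMP : S_CMP := by
  classical
  intro Γ H S J _ _ _ _ ι hι U hcl hinv B hB hinj m g hg
  have : CompleteSpace U := hcl.completeSpace_coe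
  -- the index map
  let e : H × (Fin m × S) → Γ × S := fun y => (g y.2.1 * ι y.1, y.2.2)
  have he : Function.Injective e := by
    rintro ⟨h, t, s⟩ ⟨h', t', s'⟩ hh
    simp only [e, Prod.mk.injEq] at hh
    obtain ⟨h1, h2⟩ := hh
    have h3 : t = t' := hg t t' (h * h'⁻¹) (by rw [map_mul, ← mul_assoc, h1, map_inv]; group)
    subst h3
    have h4 : ι h = ι h' := mul_left_cancel h1
    rw [hι h4, h2]
  set P : EE Γ S →L[ℂ] EE Γ S := U.starProjection with hP
  have hPe : ∀ (k : Γ) (f : EE Γ S), P (tr k f) = tr k (P f) := proj_tr hinv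
  have hPm : ∀ f, P f ∈ U := fun f => Submodule.starProjection_apply_mem U f
  set X : EE H J →L[ℂ] EE H (Fin m × S) :=
    (res e he).comp (P.comp (ContinuousLinearMap.adjoint B)) with hX
  have hXe : Eqv X := by
    intro k y
    have h1 : ContinuousLinearMap.adjoint B (tr k y) =
        tr (ι k) (ContinuousLinearMap.adjoint B y) := by
      apply ext_inner_right ℂ
      intro f
      rw [ContinuousLinearMap.adjoint_inner_left, inner_tr_left, ← hB,
        ← ContinuousLinearMap.adjoint_inner_left, inner_tr_left, map_inv]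
    rw [hX, ContinuousLinearMap.comp_apply, ContinuousLinearMap.comp_apply, h1, hPe]
    ext ⟨h, t, s⟩
    rw [tr_apply, res_apply, tr_apply]
    simp only [e, ContinuousLinearMap.comp_apply, res_apply, map_mul, mul_assoc]
  have h1 := vd_range_adjoint X hXe
  have h2 : vd (LinearMap.range (ContinuousLinearMap.adjoint X : EE H (Fin m × S) →ₗ[ℂ] EE H J)) ≤
      Fintype.card J := by
    rw [← vd_top (G := H) (J := J)]
    exact vd_mono le_top
  rw [h1] at h2
  refine le_trans ?_ h2
  -- `U` is in the closure of the range of `P B†`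
  set Y : EE H J →L[ℂ] EE Γ S := P.comp (ContinuousLinearMap.adjoint B) with hY
  set K : Submodule ℂ (EE Γ S) :=
    (LinearMap.range (Y : EE H J →ₗ[ℂ] EE Γ S)).topologicalClosure with hK
  have hKU : K ≤ U := by
    refine Submodule.topologicalClosure_minimal _ ?_ hcl
    rintro _ ⟨y, rfl⟩
    exact hPm _
  have hUK : U ≤ K := by
    intro f hf
    have a1 : f - K.starProjection f ∈ U := U.sub_mem hf (hKU (Submodule.starProjection_apply_mem _ _))
    have a2 : B (f - K.starProjection f) = 0 := by
      apply ext_inner_right ℂ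
      intro y
      rw [inner_zero_left, ← ContinuousLinearMap.adjoint_inner_right]
      have a3 : ⟪f - K.starProjection f, P (ContinuousLinearMap.adjoint B y)⟫_ℂ = 0 := by
        refine Submodule.starProjection_inner_eq_zero f _ ?_
        exact Submodule.le_topologicalClosure _ ⟨y, rfl⟩
      have a4 : ⟪f - K.starProjection f,
          ContinuousLinearMap.adjoint B y - P (ContinuousLinearMap.adjoint B y)⟫_ℂ = 0 := by
        have := Submodule.starProjection_inner_eq_zero (K := U) (ContinuousLinearMap.adjoint B y) _ a1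
        rw [← inner_conj_symm, this, map_zero]
      rw [inner_sub_right, a3, sub_zero] at a4
      exact a4
    have a5 := hinj _ a1 a2
    rw [sub_eq_zero] at a5
    rw [a5]
    exact Submodule.starProjection_apply_mem _ _
  -- estimate of the coordinates
  have hS : ∀ (t : Fin m) (s : S), ‖U.topologicalClosure.starProjection (dl ((1 : Γ), s))‖ ^ 2 ≤
      ‖(LinearMap.range (X : EE H J →ₗ[ℂ] EE H (Fin m × S))).topologicalClosure.starProjection
        (dl ((1 : H), (t, s)))‖ ^ 2 := by
    intro t s
    set W := (LinearMap.range (X : EE H J →ₗ[ℂ] EE H (Fin m × S))).topologicalClosure with hW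
    have b0 : ‖U.topologicalClosure.starProjection (dl ((1 : Γ), s))‖ = ‖P (dl (g t, s))‖ := by
      have c1 : (dl (g t, s) : EE Γ S) = tr (g t)⁻¹ (dl ((1 : Γ), s)) := by
        rw [tr_dl, one_mul, inv_inv]
      rw [c1, hPe, norm_tr]
      have c2 : ∀ (V : Submodule ℂ (EE Γ S)) [V.HasOrthogonalProjection], V = U →
          ‖V.starProjection (dl ((1 : Γ), s))‖ = ‖P (dl ((1 : Γ), s))‖ := by
        intro V _ hV
        subst hV
        rfl
      exact c2 _ (topcl_eq hcl)
    rw [b0]
    set v := P (dl (g t, s)) with hv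
    set w : EE H (Fin m × S) := res e he v with hw
    have b1 : w ∈ W := by
      have c1 : v ∈ K := hUK (hPm _)
      have c2 : v ∈ closure (LinearMap.range (Y : EE H J →ₗ[ℂ] EE Γ S) : Set (EE Γ S)) := by
        rw [← Submodule.topologicalClosure_coe]; exact c1
      have c3 := map_mem_closure (res e he).continuous c2
        (t := (LinearMap.range (X : EE H J →ₗ[ℂ] EE H (Fin m × S)) : Set (EE H (Fin m × S)))) ?_
      · rw [hW, ← SetLike.mem_coe, Submodule.topologicalClosure_coe]; exact c3
      · rintro _ ⟨y, rfl⟩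
        exact ⟨y, rfl⟩
    have b2 : v (g t, s) = ((‖v‖ ^ 2 : ℝ) : ℂ) := by
      rw [← inner_dl_left]
      have d1 : ⟪dl (g t, s) - v, v⟫_ℂ = 0 :=
        Submodule.starProjection_inner_eq_zero _ _ (hPm _)
      rw [inner_sub_left, sub_eq_zero] at d1
      rw [d1, inner_self_eq_norm_sq_to_K]
      norm_cast
    have b3 : ⟪dl ((1 : H), (t, s)), w⟫_ℂ = ((‖v‖ ^ 2 : ℝ) : ℂ) := by
      rw [inner_dl_left, hw, res_apply, ← b2]
      simp [e]
    have b4 : ⟪W.starProjection (dl ((1 : H), (t, s))), w⟫_ℂ = ((‖v‖ ^ 2 : ℝ) : ℂ) := by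
      have d1 : ⟪dl ((1 : H), (t, s)) - W.starProjection (dl ((1 : H), (t, s))), w⟫_ℂ = 0 :=
        Submodule.starProjection_inner_eq_zero _ _ b1
      rw [inner_sub_left, sub_eq_zero] at d1
      rw [← d1, b3]
    have b5 : ‖v‖ ^ 2 ≤ ‖W.starProjection (dl ((1 : H), (t, s)))‖ * ‖w‖ := by
      have := norm_inner_le_norm (𝕜 := ℂ) (W.starProjection (dl ((1 : H), (t, s)))) w
      rw [b4, Complex.norm_real, Real.norm_of_nonneg (by positivity)] at this
      exact this
    have b6 : ‖w‖ ≤ ‖v‖ := norm_res_le e he v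
    set p := ‖W.starProjection (dl ((1 : H), (t, s)))‖ with hp
    have p0 : 0 ≤ p := norm_nonneg _
    have v0 : 0 ≤ ‖v‖ := norm_nonneg _
    rcases v0.eq_or_lt with h0 | h0
    · rw [← h0]
      have : 0 ≤ p ^ 2 := by positivity
      simpa using this
    · have : ‖v‖ ≤ p := by
        by_contra hcon
        push Not at hcon
        have : p * ‖w‖ ≤ p * ‖v‖ := mul_le_mul_of_nonneg_left b6 p0
        nlinarith
      exact pow_le_pow_left₀ v0 this 2
  have h3 : vd (LinearMap.range (X : EE H J →ₗ[ℂ] EE H (Fin m × S))) =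
      ∑ t : Fin m, ∑ s : S,
      ‖(LinearMap.range (X : EE H J →ₗ[ℂ] EE H (Fin m × S))).topologicalClosure.starProjection
        (dl ((1 : H), (t, s)))‖ ^ 2 := by
    unfold vd
    rw [Fintype.sum_prod_type]
  rw [h3]
  calc (m : ℝ) * vd U = ∑ _t : Fin m, vd U := by
        rw [Finset.sum_const, Finset.card_univ, Fintype.card_fin, nsmul_eq_mul]
    _ ≤ _ := Finset.sum_le_sum fun t _ => Finset.sum_le_sum fun s _ => hS t s

end Pool.Agent.N399.PN
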