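import Pool.Agent.N399.PN.Pf

set_option autoImplicit false

/-!
# Parafree groups of rank at most one (piece CYC of R684/PN)
-/

namespace Pool.Agent.N399.PN

open Pool.Agent.R684.PN
open scoped commutatorElement

theorem free_cyc (X : Type) [Subsingleton X] : ∃ f : FreeGroup X, ∀ w : FreeGroup X, ∃ k : ℤ, w = f ^ k := by
  classical
  rcases isEmpty_or_nonempty X with h | ⟨⟨x⟩⟩
  · refine ⟨1, fun w => ⟨0, ?_⟩⟩
    have : Subsingleton (FreeGroup X) := inferInstance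
    exact Subsingleton.elim _ _
  · refine ⟨FreeGroup.of x, fun w => ?_⟩
    induction w using FreeGroup.induction_on with
    | C1 => exact ⟨0, by simp⟩
    | of y => exact ⟨1, by rw [zpow_one, Subsingleton.elim y x]⟩
    | inv_of y _ => exact ⟨-1, by rw [zpow_neg, zpow_one, Subsingleton.elim y x]⟩
    | mul a b ha hb =>
      obtain ⟨k, hk⟩ := ha
      obtain ⟨l, hl⟩ := hb
      exact ⟨k + l, by rw [zpow_add, ← hk, ← hl]⟩

theorem lc_one_of_comm {G : Type} [Group G] (h : ∀ a b : G, a * b = b * a) (x : G) (hx : x ∈ lc G 1) :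
    x = 1 := by
  have h1 : lc G 1 ≤ ⊥ := by
    change ⁅(⊤ : Subgroup G), (⊤ : Subgroup G)⁆ ≤ ⊥
    rw [Subgroup.commutator_le]
    intro a _ b _
    rw [Subgroup.mem_bot]
    exact commutatorElement_eq_one_iff_mul_comm.2 (h a b)
  exact Subgroup.mem_bot.1 (h1 hx)

theorem t_CYC : S_CYC := by
  classical
  intro P X _ hP hR hX N hN
  obtain ⟨f, hf⟩ := free_cyc X
  have hcomm : ∀ n (a b : FreeGroup X ⧸ lc (FreeGroup X) n), a * b = b * a := by
    intro n a b
    obtain ⟨a, rfl⟩ := QuotientGroup.mk_surjective a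
    obtain ⟨b, rfl⟩ := QuotientGroup.mk_surjective b
    obtain ⟨k, rfl⟩ := hf a
    obtain ⟨l, rfl⟩ := hf b
    rw [← QuotientGroup.mk_mul, ← QuotientGroup.mk_mul, ← zpow_add, ← zpow_add, add_comm]
  have h1 : ∀ y ∈ lc P 1, y = 1 := by
    intro y hy
    refine hR y fun n => ?_
    obtain ⟨ψ⟩ := hP n
    rw [← QuotientGroup.eq_one_iff]
    apply ψ.injective
    rw [map_one]
    apply lc_one_of_comm (hcomm n)
    exact lc_map' (ψ.toMonoidHom.comp (QuotientGroup.mk' (lc P n))) 1 hy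
  obtain ⟨φ⟩ := hP 1
  obtain ⟨u, hu⟩ := QuotientGroup.mk_surjective (φ.symm (f : FreeGroup X ⧸ lc (FreeGroup X) 1))
  have h2 : ∀ y : P, ∃ k : ℤ, y = u ^ k := by
    intro y
    obtain ⟨w, hw⟩ := QuotientGroup.mk_surjective (φ (y : P ⧸ lc P 1))
    obtain ⟨k, rfl⟩ := hf w
    refine ⟨k, ?_⟩
    have h3 : (y : P ⧸ lc P 1) = (u ^ k : P) := by
      apply φ.injective
      rw [← hw, QuotientGroup.mk_zpow, QuotientGroup.mk_zpow, map_zpow, hu, MulEquiv.apply_symm_apply]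
    have h4 := h1 _ (QuotientGroup.eq.1 h3)
    exact inv_mul_eq_one.1 h4
  have hc : ∀ a b : P, a * b = b * a := by
    intro a b
    obtain ⟨k, rfl⟩ := h2 a
    obtain ⟨l, rfl⟩ := h2 b
    rw [← zpow_add, ← zpow_add, add_comm]
  have : N.Normal := ⟨fun n hn g => by rw [hc g n, mul_inv_cancel_right]; exact hn⟩
  obtain ⟨⟨x, hx⟩, hx1'⟩ := Subgroup.ne_bot_iff_exists_ne_one.1 hN
  have hx1 : x ≠ 1 := fun h => hx1' (Subtype.ext h)
  obtain ⟨k, rfl⟩ := h2 x
  have hk : k ≠ 0 := by rintro rfl; exact hx1 (zpow_zero u)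
  rw [Subgroup.index_ne_zero_iff_finite]
  have h5 : IsOfFinOrder (u : P ⧸ N) := by
    rw [isOfFinOrder_iff_zpow_eq_one]
    refine ⟨k, hk, ?_⟩
    rw [← QuotientGroup.mk_zpow]
    exact (QuotientGroup.eq_one_iff _).2 hx
  have h6 : Finite (Subgroup.zpowers (u : P ⧸ N)) := finite_zpowers.2 h5
  refine Finite.of_surjective (fun z : Subgroup.zpowers (u : P ⧸ N) => z.1) fun y => ?_
  obtain ⟨y, rfl⟩ := QuotientGroup.mk_surjective y
  obtain ⟨l, rfl⟩ := h2 y
  exact ⟨⟨(u ^ l : P), by rw [QuotientGroup.mk_zpow]; exact Subgroup.zpow_mem_zpowers _ l⟩, rfl⟩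

end Pool.Agent.N399.PN
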