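import Pool.Agent.R684.PN.Stm
import Mathlib.Algebra.Category.Grp.Injective

set_option autoImplicit false

/-!
# Derivations with values in `ℂ[G]`, `G` a finite `p`-group (piece DER of R684/PN)

The derivations with values in `(ℤ/p^k)[G]` are homomorphisms to the finite `p`-group
`(ℤ/p^k)[G] ⋊ G`. The product over all `k` of the groups `ℤ/p^k` contains `ℤ`, and it is mapped to `ℂ`.
-/

namespace Pool.Agent.N399.PN

open Pool.Agent.R684.PN

/-- left translation -/
def sh {G : Type} [Group G] (R : Type) [AddCommGroup R] (g : G) : (G → R) ≃+ (G → R) where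
  toFun f x := f (g⁻¹ * x)
  invFun f x := f (g * x)
  left_inv f := by funext x; simp
  right_inv f := by funext x; simp
  map_add' _ _ := rfl

/-- the action of `G` on the functions -/
def shH (G : Type) [Group G] (R : Type) [AddCommGroup R] : G →* MulAut (Multiplicative (G → R)) where
  toFun g := AddEquiv.toMultiplicative (sh R g)
  map_one' := by
    ext f x
    change f.toAdd (1⁻¹ * x) = f.toAdd x
    simp
  map_mul' g h := by
    ext f x
    change f.toAdd ((g * h)⁻¹ * x) = f.toAdd (h⁻¹ * (g⁻¹ * x))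
    rw [mul_inv_rev, mul_assoc]

/-- the semidirect product -/
abbrev SD (G : Type) [Group G] (R : Type) [AddCommGroup R] : Type :=
  Multiplicative (G → R) ⋊[shH G R] G

section
variable {P X : Type} [Group P] {b : X → P}
  (hb : ∀ (E : Type) [Group E] [Group.IsNilpotent E] (e : X → E), ∃! h : P →* E, ∀ x, h (b x) = e x)
  (p : ℕ) [hp : Fact p.Prime] {G : Type} [Group G] [Finite G] (hG : IsPGroup p G) (q : P →* G)

include hb hG

/-- derivations with values in `(ℤ/p^k)[G]` -/
theorem der_mod (k : ℕ) (a : X → G → ZMod (p ^ k)) :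
    ∃ c : P → G → ZMod (p ^ k), (∀ (g h : P) (x : G), c (g * h) x = c g x + c h ((q g)⁻¹ * x)) ∧
      ∀ x, c (b x) = a x := by
  have : NeZero (p ^ k) := ⟨pow_ne_zero _ hp.out.ne_zero⟩
  have : Finite (SD G (ZMod (p ^ k))) := Finite.of_equiv _ SemidirectProduct.equivProd.symm
  have h1 : IsPGroup p (SD G (ZMod (p ^ k))) := by
    obtain ⟨n, hn⟩ := IsPGroup.iff_card.1 hG
    refine IsPGroup.of_card (n := k * Nat.card G + n) ?_
    rw [SemidirectProduct.card, hn]
    have h2 : Nat.card (Multiplicative (G → ZMod (p ^ k))) = (p ^ k) ^ Nat.card G := by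
      change Nat.card (G → ZMod (p ^ k)) = _
      rw [Nat.card_fun, Nat.card_zmod]
    rw [h2, ← pow_mul, ← pow_add, hn]
  have : Group.IsNilpotent (SD G (ZMod (p ^ k))) := h1.isNilpotent
  have : Group.IsNilpotent G := hG.isNilpotent
  obtain ⟨h, hh, -⟩ := hb (SD G (ZMod (p ^ k)))
    (fun x => ⟨Multiplicative.ofAdd (a x), q (b x)⟩)
  obtain ⟨q', -, hq'⟩ := hb G (fun x => q (b x))
  have e1 : SemidirectProduct.rightHom.comp h = q := by
    rw [hq' q fun _ => rfl, hq' (SemidirectProduct.rightHom.comp h) fun x => ?_]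
    rw [MonoidHom.comp_apply, hh]
    rfl
  have e2 : ∀ g, (h g).right = q g := fun g => by rw [← e1]; rfl
  refine ⟨fun g => (h g).left.toAdd, ?_, ?_⟩
  · intro g g' x
    change (h (g * g')).left.toAdd x = _
    rw [map_mul, SemidirectProduct.mul_left]
    change (h g).left.toAdd x + (h g').left.toAdd ((h g).right⁻¹ * x) = _
    rw [e2]
  · intro x
    change (h (b x)).left.toAdd = a x
    rw [hh]
    rfl

/-- derivations with integral values on the basis -/
theorem der_int (a : X → G → ℤ) :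
    ∃ c : P → G → ℂ, Coc q c ∧ ∀ x y, c (b x) y = (a x y : ℂ) := by
  let M : Type := ∀ k : ℕ, ZMod (p ^ k)
  have h0 : ∀ k : ℕ, ∃ c : P → G → ZMod (p ^ k),
      (∀ (g h : P) (x : G), c (g * h) x = c g x + c h ((q g)⁻¹ * x)) ∧
      ∀ x, c (b x) = fun y => (a x y : ZMod (p ^ k)) := fun k =>
    der_mod hb p hG q k (fun x y => (a x y : ZMod (p ^ k)))
  choose c hc1 hc2 using h0
  -- the additive map
  let j : ℤ →+ M := (Int.castRingHom (∀ k : ℕ, ZMod (p ^ k))).toAddMonoidHom
  have hjk : ∀ (z : ℤ) (k : ℕ), j z k = (z : ZMod (p ^ k)) := fun z k => by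
    change ((z : ∀ k : ℕ, ZMod (p ^ k)) k) = _
    rw [Pi.intCast_apply]
  have hj : Function.Injective j := by
    rw [injective_iff_map_eq_zero]
    intro z hz
    have h1 : ∀ k : ℕ, ((p ^ k : ℕ) : ℤ) ∣ z := by
      intro k
      have h2 : j z k = 0 := congrFun hz k
      have h3 : ((z : ℤ) : ZMod (p ^ k)) = 0 := by
        rw [← h2, hjk]
      exact (ZMod.intCast_zmod_eq_zero_iff_dvd z (p ^ k)).1 h3
    by_contra hne
    obtain ⟨k, hk⟩ : ∃ k : ℕ, z.natAbs < p ^ k := ⟨z.natAbs, Nat.lt_pow_self hp.out.one_lt⟩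
    have h2 := Int.natAbs_dvd_natAbs.2 (h1 k)
    rw [Int.natAbs_natCast] at h2
    have h3 := Nat.le_of_dvd (Int.natAbs_pos.2 hne) h2
    omega
  obtain ⟨φ, hφ⟩ := (Module.Baer.of_divisible ℂ).extension_property_addMonoidHom j hj
    (Int.castRingHom ℂ).toAddMonoidHom
  refine ⟨fun g x => φ (fun k => c k g x), ?_, ?_⟩
  · intro g h x
    have e : (fun k => c k (g * h) x : M) =
        (fun k => c k g x : M) + (fun k => c k h ((q g)⁻¹ * x) : M) := by
      funext k
      exact hc1 k g h x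
    change φ (fun k => c k (g * h) x) = _
    rw [e, map_add]
  · intro x y
    have e1 : (fun k => c k (b x) y) = j (a x y) := by
      funext k
      rw [hc2 k x, hjk]
    change φ (fun k => c k (b x) y) = _
    rw [e1]
    have := congrArg (fun f : ℤ →+ ℂ => f (a x y)) hφ
    exact this

end

theorem t_DER : S_DER := by
  classical
  intro P X _ b hb p hp G _ _ hG q x₁ x₂ hx e₁ e₂
  have := Fintype.ofFinite G
  have h1 : ∀ y : G, ∃ c : P → G → ℂ, Coc q c ∧ ∀ x z, c (b x) z =
      ((if x = x₁ ∧ z = y then 1 else 0 : ℤ) : ℂ) := fun y => der_int hb p hG q _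
  have h2 : ∀ y : G, ∃ c : P → G → ℂ, Coc q c ∧ ∀ x z, c (b x) z =
      ((if x = x₂ ∧ z = y then 1 else 0 : ℤ) : ℂ) := fun y => der_int hb p hG q _
  choose c hc1 hc2 using h1
  choose d hd1 hd2 using h2
  refine ⟨fun g x => ∑ y, e₁ y * c y g x + ∑ y, e₂ y * d y g x, ?_, ?_, ?_⟩
  · intro g h x
    have a1 : ∑ y, e₁ y * c y (g * h) x = ∑ y, e₁ y * c y g x + ∑ y, e₁ y * c y h ((q g)⁻¹ * x) := by
      rw [← Finset.sum_add_distrib]
      refine Finset.sum_congr rfl fun y _ => ?_
      rw [hc1 y g h x, mul_add]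
    have a2 : ∑ y, e₂ y * d y (g * h) x = ∑ y, e₂ y * d y g x + ∑ y, e₂ y * d y h ((q g)⁻¹ * x) := by
      rw [← Finset.sum_add_distrib]
      refine Finset.sum_congr rfl fun y _ => ?_
      rw [hd1 y g h x, mul_add]
    change ∑ y, e₁ y * c y (g * h) x + ∑ y, e₂ y * d y (g * h) x =
      (∑ y, e₁ y * c y g x + ∑ y, e₂ y * d y g x) +
      (∑ y, e₁ y * c y h ((q g)⁻¹ * x) + ∑ y, e₂ y * d y h ((q g)⁻¹ * x))
    rw [a1, a2]
    ring
  · funext z
    have a1 : ∑ y, e₁ y * c y (b x₁) z = e₁ z := by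
      rw [Finset.sum_eq_single z]
      · rw [hc2]; simp
      · intro y _ hy
        rw [hc2, if_neg (fun h => hy h.2.symm)]; simp
      · intro h; exact absurd (Finset.mem_univ z) h
    have a2 : ∑ y, e₂ y * d y (b x₁) z = 0 := by
      refine Finset.sum_eq_zero fun y _ => ?_
      rw [hd2, if_neg (fun h => hx h.1)]; simp
    change ∑ y, e₁ y * c y (b x₁) z + ∑ y, e₂ y * d y (b x₁) z = _
    rw [a1, a2, add_zero]
  · funext z
    have a1 : ∑ y, e₂ y * d y (b x₂) z = e₂ z := by
      rw [Finset.sum_eq_single z]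
      · rw [hd2]; simp
      · intro y _ hy
        rw [hd2, if_neg (fun h => hy h.2.symm)]; simp
      · intro h; exact absurd (Finset.mem_univ z) h
    have a2 : ∑ y, e₁ y * c y (b x₂) z = 0 := by
      refine Finset.sum_eq_zero fun y _ => ?_
      rw [hc2, if_neg (fun h => hx h.1.symm)]; simp
    change ∑ y, e₁ y * c y (b x₂) z + ∑ y, e₂ y * d y (b x₂) z = _
    rw [a1, a2, zero_add]

end Pool.Agent.N399.PN
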