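import Pool.Agent.R372.VG.TR

set_option autoImplicit false

/-!
# The dimension at finite level is at least one (piece FIN of R684/PN)
-/

open scoped InnerProductSpace InnerProduct ENNReal

namespace Pool.Agent.N399.PN

open Pool.Agent.W649.ZL Pool.Agent.R684.PN Pool.Agent.R684.VG Pool.Agent.R372.VG.TR

theorem t_FIN : S_FIN := by
  classical
  intro Γ G S _ _ _ _ σ q s₁ s₂ hs L₀ hc
  have := Fintype.ofFinite G
  have : FiniteDimensional ℂ (EE G S) := fin_dim
  obtain ⟨hcl, hinv⟩ := Pool.Agent.R928.PNCLO.t_CLO Γ G S σ q {L₀}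
  set U : Submodule ℂ (EE G S) := UU σ q {L₀} with hU
  set V : Submodule ℂ (EE G S) := UU σ q ∅ with hV
  -- the map given by `L₀`
  let φ : V →ₗ[ℂ] (G → ℂ) :=
    { toFun := fun f x => DD (fun s => q (σ s)) L₀ f.1 x
      map_add' := fun f g => by
        funext x
        exact DD_add _ L₀ f.1 g.1 x
      map_smul' := fun a f => by
        funext x
        exact DD_smul _ L₀ a f.1 x }
  let ψ : V →ₗ[ℂ] (G → ℂ) × (G → ℂ) :=
    { toFun := fun f => (fun x => f.1 (x, s₁), fun x => f.1 (x, s₂))
      map_add' := fun f g => rfl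
      map_smul' := fun a f => rfl }
  have hψ : Function.Surjective ψ := by
    rintro ⟨e₁, e₂⟩
    obtain ⟨c, hc1, hc2, hc3⟩ := hc e₁ e₂
    have hcz : c ∈ ZZ q := hc1
    refine ⟨⟨⟨fun y => c (σ y.2) y.1, Memℓp.all _⟩, ?_⟩, ?_⟩
    · rw [hV, mem_UU]
      refine ⟨fun L L' h x => ?_, fun L hL => absurd hL (Set.notMem_empty L)⟩
      change DD (fun s => q (σ s)) L (fun y => c (σ y.2) y.1) x =
        DD (fun s => q (σ s)) L' (fun y => c (σ y.2) y.1) x
      rw [ZZ_word σ q c hcz, ZZ_word σ q c hcz, h]
    · change ((fun x => c (σ s₁) x, fun x => c (σ s₂) x) : (G → ℂ) × (G → ℂ)) = (e₁, e₂)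
      rw [← hc2, ← hc3]
  have h1 : 2 * Fintype.card G ≤ Module.finrank ℂ V := by
    have := LinearMap.finrank_le_finrank_of_surjective (f := ψ) hψ
    rw [Module.finrank_prod, Module.finrank_fintype_fun_eq_card] at this
    omega
  have h2 : Module.finrank ℂ (LinearMap.ker φ) ≤ Module.finrank ℂ U := by
    let θ : LinearMap.ker φ →ₗ[ℂ] U :=
      { toFun := fun f => (⟨f.1.1, by
          rw [hU, mem_UU]
          refine ⟨((mem_UU σ q ∅ f.1.1).1 f.1.2).1, ?_⟩
          intro L hL x
          rw [Set.mem_singleton_iff] at hL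
          subst hL
          have := f.2
          rw [LinearMap.mem_ker] at this
          exact congrFun this x⟩ : U)
        map_add' := fun f g => rfl
        map_smul' := fun a f => rfl }
    have hinj : Function.Injective θ := by
      intro f g hfg
      apply Subtype.ext
      apply Subtype.ext
      exact congrArg (fun u : U => u.1) hfg
    exact LinearMap.finrank_le_finrank_of_injective (f := θ) hinj
  have h3 : Module.finrank ℂ V ≤ Module.finrank ℂ (LinearMap.ker φ) + Fintype.card G := by
    have a1 := LinearMap.finrank_range_add_finrank_ker φ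
    have a2 : Module.finrank ℂ (LinearMap.range φ) ≤ Fintype.card G := by
      refine (Submodule.finrank_le _).trans ?_
      rw [Module.finrank_fintype_fun_eq_card]
    omega
  have h4 : Fintype.card G ≤ Module.finrank ℂ U := by omega
  have : CompleteSpace U := hcl.completeSpace_coe
  have h5 : vd U * Fintype.card G = Module.finrank ℂ U := by
    rw [← sum_proj U, vd_eq U U (topcl_eq hcl), Fintype.sum_prod_type]
    have h2 : ∀ (x : G) (s : S), ‖U.starProjection (dl (x, s))‖ ^ 2 =
        ‖U.starProjection (dl ((1 : G), s))‖ ^ 2 := by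
      intro x s
      have e : (dl (x, s) : EE G S) = tr x⁻¹ (dl ((1 : G), s)) := by
        rw [tr_dl, one_mul, inv_inv]
      rw [e, proj_tr hinv, norm_tr]
    simp only [h2]
    rw [Finset.sum_const, Finset.card_univ, nsmul_eq_mul, mul_comm]
  have h6 : (0 : ℝ) < Fintype.card G := by exact_mod_cast Fintype.card_pos
  have h7 : (Fintype.card G : ℝ) ≤ vd U * Fintype.card G := by
    rw [h5]; exact_mod_cast h4
  by_contra hcon
  push Not at hcon
  have : vd U * Fintype.card G < 1 * Fintype.card G := mul_lt_mul_of_pos_right hcon h6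
  rw [one_mul] at this
  exact absurd h7 (not_le.2 this)

end Pool.Agent.N399.PN
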