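import Pool.Agent.R684.PN.Stm
import Pool.Agent.H32CE.TMAG
import Pool.Agent.H32CE.TGRL
import Pool.Agent.H32CE.TINJ
import Pool.Agent.H32CE.TLYN
import Pool.Agent.H32CE.TBAS
import Pool.Agent.N73.Dir.Res

set_option autoImplicit false

/-!
# Free nilpotent groups and parafree groups are residually finite `p`-groups
(pieces RES and RP of R684/PN)

The quotients of free groups by the terms of the lower central series are torsion-free by the theorem
of Magnus and Witt (`H32CE/TMAG`).
-/

namespace Pool.Agent.N399.PN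

open Pool.Agent.R684.PN Pool.Agent.H32CE

/-- functoriality of the lower central series -/
theorem lc_map {A B : Type} [Group A] [Group B] (f : A →* B) (n : ℕ) {x : A} (h : x ∈ lc A n) :
    f x ∈ lc B n := by
  have h1 := Subgroup.mem_map_of_mem f h
  rw [Subgroup.map_lowerCentralSeries] at h1
  exact Subgroup.lowerCentralSeries_mono n le_top h1

theorem magnus (r c : ℕ) (x : FreeGroup (Fin r)) :
    D (c + 1) x ↔ x ∈ gam (FreeGroup (Fin r)) c :=
  t_MAG t_GRL (t_INJ t_LYN) t_BAS r c x

/-- roots of elements of the terms of the lower central series of a free group of finite rank -/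
theorem lc_root (r n : ℕ) (x : FreeGroup (Fin r)) (m : ℕ) (hm : 0 < m)
    (h : x ^ m ∈ lc (FreeGroup (Fin r)) n) : x ∈ lc (FreeGroup (Fin r)) n := by
  have h1 : D (n + 1) (x ^ m) := (magnus r n _).2 h
  refine (magnus r n x).1 ?_
  obtain ⟨-, hmul, hD, -, -, hadd, -⟩ := t_BAS (Fin r)
  -- by induction `D k x`
  have key : ∀ k : ℕ, k ≤ n + 1 → D k x := by
    intro k
    induction k with
    | zero => intro _ i _ h2; omega
    | succ k ih =>
      intro hk
      have hDk : D k x := ih (by omega)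
      rcases Nat.eq_zero_or_pos k with h0 | h0
      · subst h0
        intro i h1 h2
        omega
      have hpow : ∀ j : ℕ, D k (x ^ j) ∧ cf k (x ^ j) = (j : ℝ) • cf k x := by
        intro j
        induction j with
        | zero =>
          have h2 : D k (1 : FreeGroup (Fin r)) := TMAG.D_one t_BAS k
          refine ⟨by simpa using h2, ?_⟩
          rw [pow_zero, Nat.cast_zero, zero_smul]
          exact TMAG.cf_one t_BAS k h0
        | succ j ihj =>
          rw [pow_succ]
          refine ⟨hD k _ _ ihj.1 hDk, ?_⟩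
          rw [hadd k k _ _ ihj.1 hDk k h0 (by omega), ihj.2]
          push_cast
          rw [add_smul, one_smul]
      intro i h2 h3
      rcases Nat.lt_or_ge i k with h4 | h4
      · exact hDk i h2 h4
      · have h5 : i = k := by omega
        subst h5
        have h6 := h1 i h2 (by omega)
        rw [(hpow m).2] at h6
        have h7 : (m : ℝ) ≠ 0 := by exact_mod_cast hm.ne'
        exact (smul_eq_zero.1 h6).resolve_left h7
  exact key (n + 1) le_rfl

theorem lc_quot (G : Type) [Group G] (n k : ℕ) :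
    (lc G k).map (QuotientGroup.mk' (lc G n)) = lc (G ⧸ lc G n) k := by
  change (Subgroup.lowerCentralSeries ⊤ k).map _ = Subgroup.lowerCentralSeries ⊤ k
  rw [Subgroup.map_lowerCentralSeries,
    Subgroup.map_top_of_surjective _ (QuotientGroup.mk'_surjective _)]

theorem nilp (G : Type) [Group G] (n : ℕ) : Group.IsNilpotent (G ⧸ lc G n) := by
  refine Subgroup.nilpotent_iff_lowerCentralSeries.2 ⟨n, ?_⟩
  change lc (G ⧸ lc G n) n = ⊥
  rw [← lc_quot, eq_bot_iff]
  rintro _ ⟨y, hy, rfl⟩
  rw [Subgroup.mem_bot]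
  exact (QuotientGroup.eq_one_iff y).2 hy

theorem res_fin (r : ℕ) (p : ℕ) [hp : Fact p.Prime] (n : ℕ) (x : FreeGroup (Fin r))
    (hx : x ∉ lc (FreeGroup (Fin r)) n) :
    ∃ (G : Type) (_ : Group G) (_ : Finite G) (f : FreeGroup (Fin r) →* G),
      IsPGroup p G ∧ (∀ y ∈ lc (FreeGroup (Fin r)) n, f y = 1) ∧ f x ≠ 1 := by
  have := nilp (FreeGroup (Fin r)) n
  have hTF : N73.Dir.TF (⊤ : Subgroup (FreeGroup (Fin r) ⧸ lc (FreeGroup (Fin r)) n)) := by
    intro y _ m hm hy
    obtain ⟨z, rfl⟩ := QuotientGroup.mk_surjective y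
    rw [← QuotientGroup.mk_pow, QuotientGroup.eq_one_iff] at hy
    exact (QuotientGroup.eq_one_iff z).2 (lc_root r n z m hm hy)
  obtain ⟨Q, hQ1, hQ2, hQ3, e, hQ4⟩ := N73.Dir.residual p
    (FreeGroup (Fin r) ⧸ lc (FreeGroup (Fin r)) n) hTF (x : FreeGroup (Fin r) ⧸ _)
    (fun h => hx ((QuotientGroup.eq_one_iff x).1 h))
  refine ⟨_ ⧸ Q, inferInstance, inferInstance,
    (QuotientGroup.mk' Q).comp (QuotientGroup.mk' (lc (FreeGroup (Fin r)) n)), ?_, ?_, ?_⟩
  · intro y
    obtain ⟨z, rfl⟩ := QuotientGroup.mk_surjective y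
    refine ⟨e, ?_⟩
    rw [← QuotientGroup.mk_pow, QuotientGroup.eq_one_iff]
    exact hQ4 z
  · intro y hy
    have h1 : (y : FreeGroup (Fin r) ⧸ lc (FreeGroup (Fin r)) n) = 1 :=
      (QuotientGroup.eq_one_iff y).2 hy
    change QuotientGroup.mk' Q (y : FreeGroup (Fin r) ⧸ lc (FreeGroup (Fin r)) n) = 1
    rw [h1, map_one]
  · intro h
    exact hQ2 ((QuotientGroup.eq_one_iff _).1 h)

theorem t_RES : S_RES := by
  classical
  intro X p hp n x hx
  obtain ⟨L, hL⟩ : ∃ L, FreeGroup.mk L = x := ⟨x.toWord, FreeGroup.mk_toWord⟩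
  let s : Finset X := (L.map Prod.fst).toFinset
  let e : s ≃ Fin s.card := s.equivFin
  let ρ : FreeGroup X →* FreeGroup (Fin s.card) :=
    FreeGroup.lift fun a => if h : a ∈ s then FreeGroup.of (e ⟨a, h⟩) else 1
  let i : FreeGroup (Fin s.card) →* FreeGroup X :=
    FreeGroup.lift fun k => FreeGroup.of (e.symm k : X)
  have h1 : i (ρ x) = x := by
    rw [← hL]
    have h2 : ∀ L' : List (X × Bool), (∀ a ∈ L', a.1 ∈ s) → i (ρ (FreeGroup.mk L')) = FreeGroup.mk L' := by
      intro L'
      induction L' with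
      | nil =>
        intro _
        change i (ρ 1) = 1
        rw [map_one, map_one]
      | cons a L' ih =>
        intro ha
        have h3 : FreeGroup.mk (a :: L') = FreeGroup.mk [a] * FreeGroup.mk L' := rfl
        rw [h3, map_mul, map_mul, ih fun b hb => ha b (List.mem_cons_of_mem _ hb)]
        congr 1
        have h4 : a.1 ∈ s := ha a List.mem_cons_self
        have h5 : i (ρ (FreeGroup.of a.1)) = FreeGroup.of a.1 := by
          change i (FreeGroup.lift _ (FreeGroup.of a.1)) = _
          rw [FreeGroup.lift_apply_of, dif_pos h4]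
          change FreeGroup.lift _ (FreeGroup.of _) = _
          rw [FreeGroup.lift_apply_of, Equiv.symm_apply_apply]
        obtain ⟨a1, b1⟩ := a
        cases b1
        · have h6 : (FreeGroup.mk [(a1, false)] : FreeGroup X) = (FreeGroup.of a1)⁻¹ := rfl
          rw [h6, map_inv, map_inv, h5]
        · exact h5
    refine h2 L fun a ha => ?_
    rw [List.mem_toFinset]
    exact List.mem_map_of_mem ha
  have h2 : ρ x ∉ lc (FreeGroup (Fin s.card)) n := by
    intro h
    have := lc_map i n h
    rw [h1] at this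
    exact hx this
  obtain ⟨G, hG1, hG2, f, hf1, hf2, hf3⟩ := res_fin s.card p n (ρ x) h2
  exact ⟨G, hG1, hG2, f.comp ρ, hf1, fun y hy => hf2 _ (lc_map ρ n hy), hf3⟩

theorem t_RP : S_RP := by
  classical
  intro P X _ hP hR p hp T
  -- one element
  have one : ∀ x : P, x ≠ 1 → ∃ (G : Type) (_ : Group G) (_ : Finite G) (q : P →* G),
      IsPGroup p G ∧ q x ≠ 1 := by
    intro x hx
    have h1 : ∃ n, x ∉ lc P n := by
      by_contra hcon
      push Not at hcon
      exact hx (hR x hcon)
    obtain ⟨n, hn⟩ := h1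
    obtain ⟨φ⟩ := hP n
    obtain ⟨y, hy⟩ := QuotientGroup.mk_surjective (φ (x : P ⧸ lc P n))
    have h2 : y ∉ lc (FreeGroup X) n := by
      intro h
      rw [← QuotientGroup.eq_one_iff, hy] at h
      have h3 : (x : P ⧸ lc P n) = 1 := by
        apply φ.injective
        rw [h, map_one]
      exact hn ((QuotientGroup.eq_one_iff x).1 h3)
    obtain ⟨G, hG1, hG2, f, hf1, hf2, hf3⟩ := t_RES X p n y h2
    let g : FreeGroup X ⧸ lc (FreeGroup X) n →* G := QuotientGroup.lift _ f fun z hz => hf2 z hz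
    refine ⟨G, hG1, hG2, g.comp (φ.toMonoidHom.comp (QuotientGroup.mk' (lc P n))), hf1, ?_⟩
    change g (φ (x : P ⧸ lc P n)) ≠ 1
    rw [← hy]
    exact hf3
  -- finitely many elements
  have fin : ∀ T' : Finset P, ∃ (G : Type) (_ : Group G) (_ : Finite G) (q : P →* G),
      IsPGroup p G ∧ ∀ x ∈ T', x ≠ 1 → q x ≠ 1 := by
    intro T'
    induction T' using Finset.induction_on with
    | empty =>
      exact ⟨Unit, inferInstance, inferInstance, 1, fun g => ⟨0, by simp⟩, fun x hx => absurd hx (Finset.notMem_empty x)⟩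
    | insert a T' ha ih =>
      obtain ⟨G, hG1, hG2, q, hq1, hq2⟩ := ih
      by_cases h1 : a = 1
      · refine ⟨G, hG1, hG2, q, hq1, fun x hx hx1 => ?_⟩
        rcases Finset.mem_insert.1 hx with rfl | hx
        · exact absurd h1 hx1
        · exact hq2 x hx hx1
      · obtain ⟨G', hG1', hG2', q', hq1', hq2'⟩ := one a h1
        refine ⟨G × G', inferInstance, inferInstance, q.prod q', ?_, fun x hx hx1 h => ?_⟩
        · rintro ⟨g, g'⟩
          obtain ⟨k, hk⟩ := hq1 g
          obtain ⟨k', hk'⟩ := hq1' g'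
          refine ⟨k + k', ?_⟩
          rw [pow_add]
          ext
          · change g ^ (p ^ k * p ^ k') = 1
            rw [pow_mul, hk, one_pow]
          · change g' ^ (p ^ k * p ^ k') = 1
            rw [mul_comm, pow_mul, hk', one_pow]
        · rcases Finset.mem_insert.1 hx with rfl | hx
          · exact hq2' (congrArg Prod.snd h)
          · exact hq2 x hx hx1 (congrArg Prod.fst h)
  obtain ⟨G, hG1, hG2, q, hq1, hq2⟩ := fin ((T ×ˢ T).image fun z => z.1⁻¹ * z.2)
  refine ⟨G, hG1, hG2, q, hq1, fun a ha b hb hab => ?_⟩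
  by_contra hne
  refine hq2 (a⁻¹ * b) (Finset.mem_image.2 ⟨(a, b), Finset.mk_mem_product ha hb, rfl⟩)
    (fun h => hne (inv_mul_eq_one.1 h)) ?_
  rw [map_mul, map_inv, hab, inv_mul_cancel]

end Pool.Agent.N399.PN
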