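import Pool.Agent.N399.PN.Cmp
import Pool.Agent.N399.PN.Fin
import Pool.Agent.N399.PN.Res
import Pool.Agent.N399.PN.Der
import Pool.Agent.N399.PN.Cyc
import Pool.Agent.R684.PN.Injc
import Pool.Agent.R787.PNOP
import Pool.Agent.R372.VG.LIMG

set_option autoImplicit false

/-!
# Finitely generated commensurated subgroups of parafree groups

Assembly of the pieces of R684/PN.  The parafree group need not be finitely generated.
-/

namespace Pool.Agent.N399.PN

open Pool.Agent.W649.ZL Pool.Agent.R684.PN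

theorem torsion_free {P X : Type} [Group P] (hP : SameLCQ P X) (hR : ResNil P) (a : P)
    (ha : IsOfFinOrder a) : a = 1 := by
  classical
  obtain ⟨k, hk, hk'⟩ := isOfFinOrder_iff_pow_eq_one.1 ha
  obtain ⟨p, hpk, hp⟩ := Nat.exists_infinite_primes (k + 1)
  have : Fact p.Prime := ⟨hp⟩
  obtain ⟨G, _, _, q, hG, hq⟩ := t_RP P X hP hR p {1, a}
  have h1 : q a = 1 := by
    obtain ⟨e, he⟩ := hG (q a)
    have h2 : (q a) ^ k = 1 := by rw [← map_pow, hk', map_one]
    have h3 : Nat.gcd (p ^ e) k = 1 := by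
      apply Nat.Coprime.pow_left
      rw [hp.coprime_iff_not_dvd]
      intro h
      have := Nat.le_of_dvd hk h
      omega
    have h4 := pow_gcd_eq_one.2 ⟨he, h2⟩
    rw [h3, pow_one] at h4
    exact h4
  by_contra hne
  exact hne (hq (by simp) (by simp) (by rw [h1, map_one]))

theorem main {P X : Type} [Group P] (hP : SameLCQ P X) (hR : ResNil P) (N : Subgroup P)
    (hN : ∀ g : P, (N.map (MulAut.conj g).toMonoidHom).relIndex N ≠ 0) (hN1 : N ≠ ⊥) (hfg : N.FG) :
    N.index ≠ 0 := by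
  classical
  intro hidx
  by_cases hX : Subsingleton X
  · exact t_CYC P X hP hR hX N hN1 hidx
  rw [not_subsingleton_iff_nontrivial] at hX
  obtain ⟨x₁, x₂, hx⟩ := hX.exists_pair_ne
  obtain ⟨b, hb⟩ := t_PF P X hP
  obtain ⟨T, hT⟩ := hfg
  obtain ⟨⟨a, ha⟩, ha'⟩ := Subgroup.ne_bot_iff_exists_ne_one.1 hN1
  have ha1 : a ≠ 1 := fun h => ha' (Subtype.ext h)
  -- cosets
  have hinf : Infinite (P ⧸ N) := by
    by_contra hcon
    rw [not_infinite_iff_finite] at hcon
    exact (Subgroup.index_ne_zero_iff_finite.2 hcon) hidx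
  let m : ℕ := T.card + 1
  obtain ⟨i⟩ : Nonempty (Fin m ↪ P ⧸ N) := ⟨(Fin.valEmbedding).trans (Infinite.natEmbedding _)⟩
  have hg0 : ∀ t : Fin m, ∃ g : P, (g : P ⧸ N) = i t := fun t => QuotientGroup.mk_surjective _
  choose g₀ hg₀ using hg0
  -- generators
  let S₀ : Type := T ⊕ (Bool ⊕ Fin m)
  let σ₀ : S₀ → P := Sum.elim (fun t => (t : P)) (Sum.elim (fun c => if c then b x₁ else b x₂) g₀)
  let Γ : Subgroup P := Subgroup.closure (Set.range σ₀)
  have hσ₀ : ∀ s, σ₀ s ∈ Γ := fun s => Subgroup.subset_closure ⟨s, rfl⟩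
  let S : Type := S₀ × Bool
  let σ : S → Γ := fun s => if s.2 then ⟨σ₀ s.1, hσ₀ s.1⟩ else (⟨σ₀ s.1, hσ₀ s.1⟩ : Γ)⁻¹
  have hσ : ∀ γ : Γ, ∃ L : List S, (L.map σ).prod = γ := by
    rintro ⟨γ, hγ⟩
    have key : ∃ L : List S, (((L.map σ).prod : Γ) : P) = γ := by
      induction hγ using Subgroup.closure_induction'' with
      | mem y hy =>
        obtain ⟨s, rfl⟩ := hy
        refine ⟨[(s, true)], ?_⟩
        rw [List.map_cons, List.map_nil, List.prod_cons, List.prod_nil, mul_one]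
        rfl
      | inv_mem y hy =>
        obtain ⟨s, rfl⟩ := hy
        refine ⟨[(s, false)], ?_⟩
        rw [List.map_cons, List.map_nil, List.prod_cons, List.prod_nil, mul_one]
        rfl
      | one => exact ⟨[], rfl⟩
      | mul y z _ _ ihy ihz =>
        obtain ⟨L, hL⟩ := ihy
        obtain ⟨L', hL'⟩ := ihz
        refine ⟨L ++ L', ?_⟩
        rw [List.map_append, List.prod_append, Subgroup.coe_mul, hL, hL']
    obtain ⟨L, hL⟩ := key
    exact ⟨L, Subtype.ext hL⟩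
  have hNΓ : N ≤ Γ := by
    rw [← hT, Subgroup.closure_le]
    intro t ht
    exact hσ₀ (Sum.inl ⟨t, ht⟩)
  let N' : Subgroup Γ := N.subgroupOf Γ
  have hN' : ∀ γ : Γ, (N'.map (MulAut.conj γ).toMonoidHom).relIndex N' ≠ 0 := by
    intro γ
    have e : N'.map (MulAut.conj γ).toMonoidHom =
        (N.map (MulAut.conj (γ : P)).toMonoidHom).subgroupOf Γ := by
      ext y
      rw [Subgroup.mem_subgroupOf, Subgroup.mem_map, Subgroup.mem_map]
      constructor
      · rintro ⟨z, hz, rfl⟩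
        exact ⟨z, hz, rfl⟩
      · rintro ⟨z, hz, hy⟩
        exact ⟨⟨z, hNΓ hz⟩, hz, Subtype.ext hy⟩
    rw [e, Subgroup.relIndex_subgroupOf hNΓ]
    exact hN γ
  let L : T → List S := fun t => [(Sum.inl t, true)]
  have hLp : ∀ t : T, (((L t).map σ).prod : Γ) = ⟨t, hσ₀ (Sum.inl t)⟩ := by
    intro t
    simp only [L, List.map_cons, List.map_nil, List.prod_cons, List.prod_nil, mul_one]
    rfl
  have hL : Subgroup.closure (Set.range fun j => ((L j).map σ).prod) = N' := by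
    apply Subgroup.map_injective Γ.subtype_injective
    rw [MonoidHom.map_closure, Subgroup.subgroupOf_map_subtype, inf_eq_left.2 hNΓ, ← hT]
    congr 1
    ext y
    constructor
    · rintro ⟨_, ⟨t, rfl⟩, rfl⟩
      simp only [hLp]
      exact t.2
    · intro hy
      refine ⟨_, ⟨⟨y, hy⟩, rfl⟩, ?_⟩
      change (((L ⟨y, hy⟩).map σ).prod : Γ).1 = y
      rw [hLp]
  obtain ⟨L₀, hL₀⟩ := hσ ⟨a, hNΓ ha⟩
  have h0 : (L₀.map σ).prod ∈ N' := by rw [hL₀]; exact ha
  have h0' : ¬ IsOfFinOrder (L₀.map σ).prod := by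
    rw [hL₀]
    intro h
    exact ha1 (torsion_free hP hR a (Γ.subtype.isOfFinOrder h))
  -- the lower bound
  have hlow : 1 ≤ vd (UU σ (MonoidHom.id Γ) {L₀}) := by
    apply Pool.Agent.R372.VG.LIMG.t_LIMG Γ S σ {L₀} 1
    intro T'
    have : Fact (Nat.Prime 2) := ⟨Nat.prime_two⟩
    obtain ⟨G, _, _, q, hG, hq⟩ := t_RP P X hP hR 2 (T'.image Γ.subtype)
    refine ⟨G, inferInstance, q.comp Γ.subtype, ?_, ?_⟩
    · intro y hy z hz hyz
      apply Subtype.ext
      exact hq (Finset.mem_coe.2 (Finset.mem_image_of_mem _ hy))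
        (Finset.mem_coe.2 (Finset.mem_image_of_mem _ hz)) hyz
    · refine t_FIN Γ G S σ (q.comp Γ.subtype) (Sum.inr (Sum.inl true), true)
        (Sum.inr (Sum.inl false), true)
        (fun h => Bool.noConfusion (Sum.inl.inj (Sum.inr.inj (Prod.mk.inj h).1))) L₀ ?_
      intro e₁ e₂
      obtain ⟨c, hc1, hc2, hc3⟩ := t_DER P X b hb 2 G hG q x₁ x₂ hx e₁ e₂
      exact ⟨fun γ => c γ, fun y z x => hc1 y z x, hc2, hc3⟩
  -- the upper bound
  obtain ⟨B, hB⟩ := Pool.Agent.R787.PNOP.t_OP Γ N' S T σ N'.subtype N'.subtype_injective L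
  obtain ⟨hcl, hinv⟩ := Pool.Agent.R928.PNCLO.t_CLO Γ Γ S σ (MonoidHom.id Γ) {L₀}
  have hup := t_CMP Γ N' S T N'.subtype N'.subtype_injective _ hcl hinv B ?_ ?_ m
    (fun t => ⟨g₀ t, hσ₀ (Sum.inr (Sum.inr t))⟩) ?_
  · have h1 : (Fintype.card T : ℝ) = T.card := by rw [Fintype.card_coe]
    rw [h1] at hup
    have h2 : (m : ℝ) = T.card + 1 := by push_cast [m]; ring
    rw [h2] at hup
    have h3 : (0 : ℝ) ≤ T.card := by positivity
    nlinarith
  · intro k f
    ext ⟨h, j⟩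
    rw [hB, tr_apply, hB, Pool.Agent.R928.PNCLO.DD_tr, map_mul]
  · intro f hf hBf
    refine injc σ hσ N' hN' L hL L₀ h0 h0' f hf fun n j => ?_
    have h1 := hB f n j
    rw [hBf] at h1
    exact h1.symm
  · intro t t' h hh
    apply i.injective
    rw [← hg₀, ← hg₀, QuotientGroup.eq]
    have h1 : g₀ t * (h : Γ) = g₀ t' := congrArg (fun γ : Γ => (γ : P)) hh
    rw [← h1, inv_mul_cancel_left]
    exact h.2

end Pool.Agent.N399.PN
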