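import Pool.Agent.R684.PN.Stm
import Pool.Agent.H596Q.Lcs

set_option autoImplicit false

/-!
# Homomorphisms from a parafree group to nilpotent groups can be prescribed on a basis
(piece PF of R684/PN)
-/

namespace Pool.Agent.N399.PN

open Pool.Agent.R684.PN
open scoped commutatorElement

theorem lc_map' {A B : Type} [Group A] [Group B] (f : A →* B) (n : ℕ) {x : A} (h : x ∈ lc A n) :
    f x ∈ lc B n := by
  have h1 := Subgroup.mem_map_of_mem f h
  rw [Subgroup.map_lowerCentralSeries] at h1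
  exact Subgroup.lowerCentralSeries_mono n le_top h1

theorem lc_mono (G : Type) [Group G] {m n : ℕ} (h : m ≤ n) : lc G n ≤ lc G m :=
  Subgroup.lowerCentralSeries_antitone ⊤ h

/-- commutators modulo the terms of the lower central series -/
theorem comm_congr {G : Type} [Group G] (k : ℕ) {v v0 g g0 : G} (hv0 : v0 ∈ lc G k)
    (hv : (v0 : G ⧸ lc G (k + 1)) = v) (hg : (g0 : G ⧸ lc G 1) = g) :
    ((⁅v0, g0⁆ : G) : G ⧸ lc G (k + 2)) = (⁅v, g⁆ : G) := by
  have hz : v0⁻¹ * v ∈ lc G (k + 1) := QuotientGroup.eq.1 hv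
  have hy : g0⁻¹ * g ∈ lc G 1 := QuotientGroup.eq.1 hg
  obtain ⟨z, rfl⟩ : ∃ z, v = v0 * z := ⟨v0⁻¹ * v, by group⟩
  obtain ⟨y, rfl⟩ : ∃ y, g = g0 * y := ⟨g0⁻¹ * g, by group⟩
  rw [inv_mul_cancel_left] at hz hy
  have c1 : ∀ x : G, Commute (z : G ⧸ lc G (k + 2)) (x : G ⧸ lc G (k + 2)) := by
    intro x
    have h1 : ⁅z, x⁆ ∈ lc G (k + 2) := Subgroup.commutator_mem_commutator hz (Subgroup.mem_top x)
    have h2 : ((⁅z, x⁆ : G) : G ⧸ lc G (k + 2)) = 1 := (QuotientGroup.eq_one_iff _).2 h1
    exact commutatorElement_eq_one_iff_commute.1 h2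
  have hvk : v0 * z ∈ lc G k := (lc G k).mul_mem hv0 (lc_mono G (Nat.le_succ k) hz)
  have c2 : Commute ((v0 * z : G) : G ⧸ lc G (k + 2)) (y : G ⧸ lc G (k + 2)) := by
    have h1 : ⁅v0 * z, y⁆ ∈ lc G (k + 1 + 1) :=
      H596Q.lcs_comm 1 k (Subgroup.commutator_mem_commutator hvk hy)
    have h2 : ((⁅v0 * z, y⁆ : G) : G ⧸ lc G (k + 2)) = 1 := (QuotientGroup.eq_one_iff _).2 h1
    exact commutatorElement_eq_one_iff_commute.1 h2
  have key : ∀ (Q : Type) [Group Q] (a c d e : Q), Commute c d → Commute (a * c) e →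
      ⁅a, d⁆ = ⁅a * c, d * e⁆ := by
    intro Q _ a c d e h1 h2
    rw [commutatorElement_def, commutatorElement_def]
    have e1 : e * (a * c)⁻¹ * e⁻¹ = (a * c)⁻¹ := by
      rw [(h2.symm.inv_right).eq]; group
    have e2 : c * d * c⁻¹ = d := by rw [h1.eq]; group
    calc a * d * a⁻¹ * d⁻¹ = a * (c * d * c⁻¹) * a⁻¹ * d⁻¹ := by rw [e2]
      _ = a * c * d * (a * c)⁻¹ * d⁻¹ := by group
      _ = a * c * d * (e * (a * c)⁻¹ * e⁻¹) * d⁻¹ := by rw [e1]
      _ = a * c * (d * e) * (a * c)⁻¹ * (d * e)⁻¹ := by group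
  exact key _ (v0 : G ⧸ lc G (k + 2)) z g0 y (c1 g0) c2

/-- homomorphisms which agree modulo commutators agree on the quotients of the lower central
series -/
theorem hom_congr {A B : Type} [Group A] [Group B] (f g : A →* B)
    (h : ∀ a, (f a : B ⧸ lc B 1) = g a) :
    ∀ (k : ℕ) (a : A), a ∈ lc A k → (f a : B ⧸ lc B (k + 1)) = g a := by
  intro k
  induction k with
  | zero => intro a _; exact h a
  | succ k ih =>
    intro a ha
    have ha' : a ∈ Subgroup.closure {x | ∃ p ∈ lc A k, ∃ q ∈ (⊤ : Subgroup A), ⁅p, q⁆ = x} := ha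
    induction ha' using Subgroup.closure_induction with
    | mem x hx =>
      obtain ⟨u, hu, y, -, rfl⟩ := hx
      rw [map_commutatorElement, map_commutatorElement]
      exact comm_congr k (lc_map' f k hu) (ih u hu) (h y)
    | one => rw [map_one, map_one]
    | mul x y hx hy ihx ihy =>
      rw [map_mul, map_mul, QuotientGroup.mk_mul, QuotientGroup.mk_mul, ihx hx, ihy hy]
    | inv x hx ihx =>
      rw [map_inv, map_inv, QuotientGroup.mk_inv, QuotientGroup.mk_inv, ihx hx]

theorem surj_lc {F P : Type} [Group F] [Group P] (β : F →* P)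
    (h : ∀ u : P, ∃ w, (β w : P ⧸ lc P 1) = u) :
    ∀ (k : ℕ) (u : P), u ∈ lc P k → ∃ w ∈ lc F k, (β w : P ⧸ lc P (k + 1)) = u := by
  intro k
  induction k with
  | zero =>
    intro u _
    obtain ⟨w, hw⟩ := h u
    exact ⟨w, trivial, hw⟩
  | succ k ih =>
    intro a ha
    have ha' : a ∈ Subgroup.closure {x | ∃ p ∈ lc P k, ∃ q ∈ (⊤ : Subgroup P), ⁅p, q⁆ = x} := ha
    induction ha' using Subgroup.closure_induction with
    | mem x hx =>
      obtain ⟨u, hu, y, -, rfl⟩ := hx
      obtain ⟨w, hw1, hw2⟩ := ih u hu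
      obtain ⟨v, hv⟩ := h y
      refine ⟨⁅w, v⁆, Subgroup.commutator_mem_commutator hw1 (Subgroup.mem_top v), ?_⟩
      rw [map_commutatorElement]
      exact comm_congr k (lc_map' β k hw1) hw2 hv
    | one => exact ⟨1, one_mem _, by rw [map_one]⟩
    | mul x y hx hy ihx ihy =>
      obtain ⟨w, hw1, hw2⟩ := ihx hx
      obtain ⟨v, hv1, hv2⟩ := ihy hy
      refine ⟨w * v, mul_mem hw1 hv1, ?_⟩
      rw [map_mul, QuotientGroup.mk_mul, QuotientGroup.mk_mul, hw2, hv2]
    | inv x hx ihx =>
      obtain ⟨w, hw1, hw2⟩ := ihx hx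
      refine ⟨w⁻¹, inv_mem hw1, ?_⟩
      rw [map_inv, QuotientGroup.mk_inv, QuotientGroup.mk_inv, hw2]

theorem surj_all {F P : Type} [Group F] [Group P] (β : F →* P)
    (h : ∀ u : P, ∃ w, (β w : P ⧸ lc P 1) = u) (n : ℕ) (u : P) :
    ∃ w, (β w : P ⧸ lc P n) = u := by
  induction n with
  | zero =>
    refine ⟨1, ?_⟩
    rw [QuotientGroup.eq]
    trivial
  | succ n ih =>
    obtain ⟨w, hw⟩ := ih
    have h1 : (β w)⁻¹ * u ∈ lc P n := QuotientGroup.eq.1 hw
    obtain ⟨v, -, hv⟩ := surj_lc β h n _ h1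
    refine ⟨w * v, ?_⟩
    rw [map_mul, QuotientGroup.mk_mul, hv, ← QuotientGroup.mk_mul, mul_inv_cancel_left]

/-- an endomorphism which is the identity modulo commutators reflects the lower central series -/
theorem refl_lc {F : Type} [Group F] (δ : F →* F) (h : ∀ a, (δ a : F ⧸ lc F 1) = a) (n : ℕ) (w : F)
    (hw : δ w ∈ lc F n) : w ∈ lc F n := by
  have key : ∀ k, k ≤ n → w ∈ lc F k := by
    intro k
    induction k with
    | zero => intro _; trivial
    | succ k ih =>
      intro hk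
      have h1 := hom_congr δ (MonoidHom.id F) (fun a => h a) k w (ih (by omega))
      have h2 : (δ w : F ⧸ lc F (k + 1)) = 1 :=
        (QuotientGroup.eq_one_iff _).2 (lc_mono F hk hw)
      rw [h2] at h1
      exact (QuotientGroup.eq_one_iff _).1 h1.symm
  exact key n le_rfl

theorem t_PF : S_PF := by
  classical
  intro P X _ hP
  obtain ⟨φ⟩ := hP 1
  have hb : ∀ x : X, ∃ y : P, (y : P ⧸ lc P 1) = φ.symm (FreeGroup.of x : FreeGroup X) := fun x =>
    QuotientGroup.mk_surjective _
  choose b hb using hb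
  let F := FreeGroup X
  let β : F →* P := FreeGroup.lift b
  have hβ : ∀ w : F, (β w : P ⧸ lc P 1) = φ.symm (w : F ⧸ lc F 1) := by
    intro w
    have h1 : (QuotientGroup.mk' (lc P 1)).comp β =
        φ.symm.toMonoidHom.comp (QuotientGroup.mk' (lc F 1)) := by
      apply FreeGroup.ext_hom
      intro x
      change ((FreeGroup.lift b (FreeGroup.of x) : P) : P ⧸ lc P 1) = _
      rw [FreeGroup.lift_apply_of]
      exact hb x
    exact DFunLike.congr_fun h1 w
  have hs1 : ∀ u : P, ∃ w, (β w : P ⧸ lc P 1) = u := by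
    intro u
    obtain ⟨w, hw⟩ := QuotientGroup.mk_surjective (φ (u : P ⧸ lc P 1))
    refine ⟨w, ?_⟩
    rw [hβ, hw, MulEquiv.symm_apply_apply]
  -- injectivity
  have hinj : ∀ (n : ℕ) (w : F), β w ∈ lc P n → w ∈ lc F n := by
    intro n w hw
    rcases Nat.eq_zero_or_pos n with h0 | h0
    · subst h0; trivial
    obtain ⟨ψ⟩ := hP n
    -- the lift of `ψ ∘ β`
    have ha : ∀ x : X, ∃ y : F, (y : F ⧸ lc F n) = ψ (b x : P ⧸ lc P n) := fun x =>
      QuotientGroup.mk_surjective _
    choose a ha using ha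
    let α : F →* F := FreeGroup.lift a
    have hα : ∀ w : F, (α w : F ⧸ lc F n) = ψ (β w : P ⧸ lc P n) := by
      intro w
      have h1 : (QuotientGroup.mk' (lc F n)).comp α =
          ψ.toMonoidHom.comp ((QuotientGroup.mk' (lc P n)).comp β) := by
        apply FreeGroup.ext_hom
        intro x
        change ((FreeGroup.lift a (FreeGroup.of x) : F) : F ⧸ lc F n) =
          ψ ((FreeGroup.lift b (FreeGroup.of x) : P) : P ⧸ lc P n)
        rw [FreeGroup.lift_apply_of, FreeGroup.lift_apply_of]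
        exact ha x
      exact DFunLike.congr_fun h1 w
    -- `α` is injective modulo `lc 1` and surjective modulo `lc 1`
    have hα1 : ∀ w : F, α w ∈ lc F 1 ↔ w ∈ lc F 1 := by
      intro w
      have e1 : w ∈ lc F 1 ↔ β w ∈ lc P 1 := by
        rw [← QuotientGroup.eq_one_iff, ← QuotientGroup.eq_one_iff (N := lc P 1), hβ,
          MulEquiv.map_eq_one_iff]
      rw [e1]
      have e2 : (lc P 1).map (QuotientGroup.mk' (lc P n)) = lc (P ⧸ lc P n) 1 := by
        change (Subgroup.lowerCentralSeries ⊤ 1).map _ = Subgroup.lowerCentralSeries ⊤ 1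
        rw [Subgroup.map_lowerCentralSeries,
          Subgroup.map_top_of_surjective _ (QuotientGroup.mk'_surjective _)]
      have e3 : (lc F 1).map (QuotientGroup.mk' (lc F n)) = lc (F ⧸ lc F n) 1 := by
        change (Subgroup.lowerCentralSeries ⊤ 1).map _ = Subgroup.lowerCentralSeries ⊤ 1
        rw [Subgroup.map_lowerCentralSeries,
          Subgroup.map_top_of_surjective _ (QuotientGroup.mk'_surjective _)]
      have f2 : ∀ u : P, u ∈ lc P 1 ↔ (u : P ⧸ lc P n) ∈ lc (P ⧸ lc P n) 1 := by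
        intro u
        constructor
        · intro h; exact lc_map' (QuotientGroup.mk' (lc P n)) 1 h
        · intro h
          rw [← e2] at h
          obtain ⟨u', hu', hu''⟩ := h
          have h3 : u'⁻¹ * u ∈ lc P n := QuotientGroup.eq.1 hu''
          have := (lc P 1).mul_mem hu' (lc_mono P h0 h3)
          rwa [mul_inv_cancel_left] at this
      have f3 : ∀ u : F, u ∈ lc F 1 ↔ (u : F ⧸ lc F n) ∈ lc (F ⧸ lc F n) 1 := by
        intro u
        constructor
        · intro h; exact lc_map' (QuotientGroup.mk' (lc F n)) 1 h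
        · intro h
          rw [← e3] at h
          obtain ⟨u', hu', hu''⟩ := h
          have h3 : u'⁻¹ * u ∈ lc F n := QuotientGroup.eq.1 hu''
          have := (lc F 1).mul_mem hu' (lc_mono F h0 h3)
          rwa [mul_inv_cancel_left] at this
      rw [f2, f3, hα]
      constructor
      · intro h
        have := lc_map' ψ.symm.toMonoidHom 1 h
        simpa using this
      · intro h
        exact lc_map' ψ.toMonoidHom 1 h
    have hα2 : ∀ y : F, ∃ w : F, (α w : F ⧸ lc F 1) = y := by
      intro y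
      obtain ⟨u, hu⟩ := QuotientGroup.mk_surjective (ψ.symm (y : F ⧸ lc F n))
      obtain ⟨w, hw⟩ := surj_all β hs1 n u
      refine ⟨w, ?_⟩
      have h1 : (α w : F ⧸ lc F n) = y := by
        rw [hα, hw, hu, MulEquiv.apply_symm_apply]
      rw [QuotientGroup.eq] at h1 ⊢
      exact lc_mono F h0 h1
    -- the inverse modulo `lc 1`
    have hc : ∀ x : X, ∃ w : F, (α w : F ⧸ lc F 1) = (FreeGroup.of x : F) := fun x => hα2 _
    choose c hc using hc
    let γ : F →* F := FreeGroup.lift c
    have hγ : ∀ w : F, (α (γ w) : F ⧸ lc F 1) = w := by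
      intro w
      have h1 : (QuotientGroup.mk' (lc F 1)).comp (α.comp γ) = QuotientGroup.mk' (lc F 1) := by
        apply FreeGroup.ext_hom
        intro x
        change ((α (FreeGroup.lift c (FreeGroup.of x)) : F) : F ⧸ lc F 1) = (FreeGroup.of x : F)
        rw [FreeGroup.lift_apply_of]
        exact hc x
      exact DFunLike.congr_fun h1 w
    have hδ : ∀ w : F, ((γ.comp α) w : F ⧸ lc F 1) = w := by
      intro w
      rw [QuotientGroup.eq]
      have h1 := QuotientGroup.eq.1 (hγ (α w))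
      rw [← map_inv, ← map_mul] at h1
      exact (hα1 _).1 h1
    apply refl_lc (γ.comp α) hδ
    change γ (α w) ∈ lc F n
    apply lc_map'
    rw [← QuotientGroup.eq_one_iff, hα]
    have h1 : (β w : P ⧸ lc P n) = 1 := (QuotientGroup.eq_one_iff _).2 hw
    rw [h1, map_one]
  refine ⟨b, ?_⟩
  intro E _ hE e
  obtain ⟨n, hn⟩ := Subgroup.nilpotent_iff_lowerCentralSeries.1 hE
  have hn' : ∀ y ∈ lc E n, y = 1 := fun y hy => by
    have : y ∈ (⊥ : Subgroup E) := hn ▸ hy
    exact Subgroup.mem_bot.1 this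
  let η : F →* E := FreeGroup.lift e
  choose s hs using surj_all β hs1 n
  have hη : ∀ w v : F, (β w : P ⧸ lc P n) = β v → η w = η v := by
    intro w v h
    have h1 : β (w⁻¹ * v) ∈ lc P n := by
      rw [map_mul, map_inv]
      exact QuotientGroup.eq.1 h
    have h2 := hn' _ (lc_map' η n (hinj n _ h1))
    rw [map_mul, map_inv] at h2
    exact inv_mul_eq_one.1 h2
  let h : P →* E :=
    { toFun := fun u => η (s u)
      map_one' := by
        rw [← map_one η]
        apply hη
        rw [hs, map_one]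
      map_mul' := fun u v => by
        rw [← map_mul]
        apply hη
        rw [hs, map_mul, QuotientGroup.mk_mul, QuotientGroup.mk_mul, hs, hs] }
  refine ⟨h, ?_, ?_⟩
  · intro x
    change η (s (b x)) = e x
    have h1 : η (s (b x)) = η (FreeGroup.of x) := by
      apply hη
      rw [hs]
      change _ = ((FreeGroup.lift b (FreeGroup.of x) : P) : P ⧸ lc P n)
      rw [FreeGroup.lift_apply_of]
    rw [h1]
    exact FreeGroup.lift_apply_of
  · intro h' hh'
    ext u
    change h' u = η (s u)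
    have h1 : h'.comp β = η := by
      apply FreeGroup.ext_hom
      intro x
      change h' (FreeGroup.lift b (FreeGroup.of x)) = FreeGroup.lift e (FreeGroup.of x)
      rw [FreeGroup.lift_apply_of, FreeGroup.lift_apply_of]
      exact hh' x
    rw [← h1]
    change h' u = h' (β (s u))
    have h2 : (β (s u))⁻¹ * u ∈ lc P n := QuotientGroup.eq.1 (hs u)
    have h3 := hn' _ (lc_map' h' n h2)
    rw [map_mul, map_inv] at h3
    exact (inv_mul_eq_one.1 h3).symm

end Pool.Agent.N399.PN
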